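import Pool.Agent.Lib.MP_972ec5_co.Gap

/-! Locally and globally expanding `(64 m², 6, 2)`-regular graphs of unbounded size. -/

namespace Pool.Agent.Results.MP_972ec5_co.CycleLinks

open Pool.Agent.Lib.MP_972ec5_co

theorem result : ∀ m : ℕ, 1 ≤ m → ∃ ε : ℝ, 0 < ε ∧ ∀ n : ℕ,
    ∃ (V : Type) (_ : Finite V) (G : SimpleGraph V),
      n ≤ Nat.card V ∧ Good G (64 * m ^ 2) 6 2 ε := by
  intro m hm
  have : NeZero (8 * m) := ⟨by omega⟩
  have h := main (N := 8 * m) (dvd_mul_right 8 m)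
  rwa [show (8 * m) ^ 2 = 64 * m ^ 2 by ring] at h

end Pool.Agent.Results.MP_972ec5_co.CycleLinks
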