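import Pool.Agent.FS.HalvedCubes.Glob
import Pool.Agent.Lib.MP_972ec5_co.NE.Conn
import Pool.Agent.Lib.MP_972ec5_co.Sum.Fam

/-! One finite graph `K` with connected `b`-regular vertex links and connected `c`-regular edge
links, in which some vertex has two non-neighbours, gives locally and globally expanding
`(|E(K)|, 2 b, c + 1)`-regular graphs of unbounded size. -/

namespace Pool.Agent.Results.MP_972ec5_co.HalvedCubes

open Pool.Agent.Lib.MP_972ec5_co Pool.Agent.FS.HalvedCubes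

theorem result (W : Type) [Finite W] (K : SimpleGraph W) (b c : ℕ) (h1 : 1 ≤ b)
    (hK : K.Preconnected)
    (hb : ∀ v, (K.induce (K.neighborSet v)).Preconnected ∧ Reg (K.induce (K.neighborSet v)) b)
    (hc : ∀ u v, K.Adj u v → (K.induce (K.commonNeighbors u v)).Preconnected ∧
      Reg (K.induce (K.commonNeighbors u v)) c)
    (x y z : W) (hx : x ≠ y) (hz : z ≠ y) (hxz : x ≠ z) (nx : ¬ K.Adj y x) (nz : ¬ K.Adj y z) :
    ∃ ε : ℝ, 0 < ε ∧ ∀ n : ℕ, ∃ (V : Type) (_ : Finite V) (G : SimpleGraph V),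
      n ≤ Nat.card V ∧ Good G K.edgeSet.ncard (2 * b) (c + 1) ε := by
  classical
  have hN : ∀ s t, K.Adj s t → Nice (K.induce (K.commonNeighbors s t)) b c := fun s t h =>
    ⟨(hc s t h).1, (hc s t h).2, by rw [← (hb s).2 ⟨t, h⟩, ind_ncard]⟩
  obtain ⟨C, hC, hE⟩ := expanders hK hx hz hxz nx nz
  obtain ⟨s, t, hst⟩ : ∃ s t, K.Adj s t := by
    obtain ⟨w⟩ := hK x y
    cases w with
    | nil => exact absurd rfl hx
    | cons h _ => exact ⟨_, _, h⟩
  set a := K.edgeSet.ncard with ha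
  have ha1 : 1 < a := by
    obtain ⟨V, _, S, hn, _⟩ := hE 1
    obtain ⟨v⟩ : Nonempty V := Fintype.card_pos_iff.1 hn
    have e1 := (S.nice_edge hN (S.adj_τ hst v)).2.2
    have e2 := Set.ncard_le_ncard (S.G.commonNeighbors_subset_neighborSet_left v (S.τ s t v))
    rw [S.deg, ← Nat.card_coe_set_eq, e1] at e2
    omega
  have ha' : (0 : ℝ) < a := by exact_mod_cast (by omega : 0 < a)
  have hb' : (0 : ℝ) < (2 * b : ℕ) := by exact_mod_cast (by omega : 0 < 2 * b)
  refine ⟨min (1 / C) (min (1 / (a * 2 ^ (a + 1))) (1 / ((2 * b : ℕ) * 2 ^ (2 * b + 1)))),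
    by positivity, fun n => ?_⟩
  obtain ⟨V, _, S, hn, hP⟩ := hE (n + 2)
  have hl := S.nice_link hK (fun p => (hb p).1) hN
  refine ⟨V, inferInstance, S.G, by rw [Nat.card_eq_fintype_card]; omega,
    ⟨S.deg, ?_⟩, fun v => ⟨(hl v).2.1, ?_⟩, fun u v h => ⟨(S.nice_edge hN h).2.1, ?_⟩⟩
  · exact (lam2_le S.G S.deg hC hP (by omega)).trans (sub_le_sub_left (min_le_left _ _) _)
  · exact ((hl v).gap ha1).trans
      (sub_le_sub_left ((min_le_right _ _).trans (min_le_left _ _)) _)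
  · exact ((S.nice_edge hN h).gap (by omega)).trans
      (sub_le_sub_left ((min_le_right _ _).trans (min_le_right _ _)) _)

/-- A triple with an expanding family of unbounded size. -/
def Works (a b c : ℕ) : Prop :=
  ∃ ε : ℝ, 0 < ε ∧ ∀ n : ℕ, ∃ (V : Type) (_ : Finite V) (G : SimpleGraph V),
    n ≤ Nat.card V ∧ Good G a b c ε

/-- Consequence of `result`: from `(a, b, c)` to `(a', 2 b, c + 1)` with `a'` arbitrarily large. -/
theorem step {a b c : ℕ} (h1 : 1 ≤ b) (h : Works a b c) (a₀ : ℕ) :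
    ∃ a', a₀ ≤ a' ∧ Works a' (2 * b) (c + 1) := by
  classical
  obtain ⟨ε, hε, h⟩ := h
  obtain ⟨W, _, K, hn, ⟨r0, l0⟩, hv, he⟩ := h (a₀ + a + 3)
  have hK := NE.conn K r0 hε l0
  have : Nonempty W := (Nat.card_pos_iff.1 (by omega)).1
  obtain ⟨y⟩ := this
  have h2 : 1 < (insert y (K.neighborSet y))ᶜ.ncard := by
    have e1 := Set.ncard_add_ncard_compl (insert y (K.neighborSet y))
    have e2 := Set.ncard_insert_le y (K.neighborSet y)
    have e3 := r0 y
    omega
  obtain ⟨x, z, hx, hz, hxz⟩ := (Set.one_lt_ncard_iff (Set.toFinite _)).1 h2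
  simp only [Set.mem_compl_iff, Set.mem_insert_iff, SimpleGraph.mem_neighborSet, not_or] at hx hz
  refine ⟨_, ?_, result W K b c h1 hK (fun v => ⟨NE.conn _ (hv v).1 hε (hv v).2, (hv v).1⟩)
    (fun u v h => ⟨NE.conn _ (he u v h).1 hε (he u v h).2, (he u v h).1⟩) x y z hx.1 hz.1 hxz
    hx.2 hz.2⟩
  have : Nonempty W := ⟨y⟩
  have := (SimpleGraph.Connected.mk hK).card_vert_le_card_edgeSet_add_one
  rw [Nat.card_coe_set_eq] at this
  omega

/-- With the graphs of `WallCovers`: all pairs `(2 ^ (j + 1) m, j + 2)`, `m ≥ 3`. -/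
theorem pairs (j m : ℕ) (hm : 3 ≤ m) (a₀ : ℕ) :
    ∃ a, a₀ ≤ a ∧ Works a (2 ^ (j + 1) * m) (j + 2) := by
  induction j generalizing a₀ with
  | zero =>
    have h := Sum.family (d := 1) (g := m) (α := 1) (h := 1) ⊥ le_rfl hm le_rfl le_rfl a₀
    have e : Nat.card {A : Set (Fin 1) // (⊥ : SimpleGraph (Fin 1)).IsIndepSet A} = 2 := by
      have u : ∀ A : Set (Fin 1), (⊥ : SimpleGraph (Fin 1)).IsIndepSet A :=
        fun A a _ b _ _ h => h
      rw [Nat.card_congr (Equiv.subtypeUnivEquiv u)]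
      simp
    rw [e] at h
    simpa [Works] using h
  | succ j ih =>
    obtain ⟨a, _, h⟩ := ih 0
    have := step (Nat.mul_pos (by positivity) (by omega)) h a₀
    rwa [← mul_assoc, ← pow_succ'] at this

end Pool.Agent.Results.MP_972ec5_co.HalvedCubes
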