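import Pool.Agent.Lib.MP_972ec5_co.NE.Line

/-! No unbounded family, even without local expansion, when `1 ≤ c` and `a + 2c < 3b`. -/

namespace Pool.Agent.Results.MP_972ec5_co.SparseEdgeLinks

open Pool.Agent.Lib.MP_972ec5_co Pool.Agent.Lib.MP_972ec5_co.NE

theorem result (a b c : ℕ) (h1 : 1 ≤ c) (h2 : a + 2 * c < 3 * b) (V : Type) [Finite V]
    (G : SimpleGraph V) (ha : Reg G a) (hb : ∀ v, Reg (G.induce (G.neighborSet v)) b)
    (hc : ∀ u v, G.Adj u v → Reg (G.induce (G.commonNeighbors u v)) c) (hl : lam2 G < a) :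
    Nat.card V ≤ (a + 1) ^ 8 := by
  let _ := Fintype.ofFinite V
  have hcon := conn G ha (sub_pos.2 hl) (by linarith)
  have hA := ca_of ha
  have hB : CB G b := fun u v huv => by
    rw [← hb u ⟨v, huv⟩, ind_card]
    congr 1
    ext w
    simp
  have hC : CC G c := fun u v w huv huw hvw => by
    rw [← hc u v huv ⟨w, huw, hvw⟩, ind_card]
    congr 1
    ext t
    simp [SimpleGraph.mem_commonNeighbors, and_assoc]
  exact card_le hcon hA (dist_le8 hcon hA hB hC h1 h2)

end Pool.Agent.Results.MP_972ec5_co.SparseEdgeLinks
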