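import Pool.Agent.Lib.MP_972ec5_co.Sum.Fam

/-! Locally and globally expanding regular graphs with parameters `a`, `2 α g ^ d h`, `i h` of unbounded size,
for infinitely many `a`, where `i` is the number of independent sets of a graph `Γ` on `d`
vertices. -/

namespace Pool.Agent.Results.MP_972ec5_co.WallCovers

open Pool.Agent.Lib.MP_972ec5_co

theorem result : ∀ (d g α h : ℕ) (Γ : SimpleGraph (Fin d)), 1 ≤ d → 3 ≤ g → 1 ≤ α → 1 ≤ h →
    ∀ a₀ : ℕ, ∃ a, a₀ ≤ a ∧ ∃ ε : ℝ, 0 < ε ∧ ∀ n : ℕ,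
      ∃ (V : Type) (_ : Finite V) (G : SimpleGraph V), n ≤ Nat.card V ∧
        Good G a (2 * α * g ^ d * h) (Nat.card {A : Set (Fin d) // Γ.IsIndepSet A} * h) ε :=
  fun _ _ _ _ Γ hd hg hα hh a₀ => Sum.family Γ hd hg hα hh a₀

end Pool.Agent.Results.MP_972ec5_co.WallCovers
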